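import Pool.Agent.TH212.CuspComm

/-!
A counterexample: the (non-normal) irreducible affine Poisson surface
`X = Spec (ℂ + (x, y) ^ 2) ⊆ Spec ℂ[x, y]` has the symplectic resolution `𝔸² → X`, and it has a
deformation quantization (the completed Rees algebra of the ring of differential operators on the
cuspidal cubic curve) for which the canonical surjection `HP_0(O_X)((ħ)) → gr HH_0(A[ħ⁻¹])` kills
the nonzero class of `1`.
-/

set_option autoImplicit false

namespace Pool.Agent.Results.MP_b538eb_ag.NonNormal

open Pool.Agent.TH212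

/-- Let `O` be the algebra of all `f ∈ ℂ[x, y]` with `∂_x f (0) = ∂_y f (0) = 0`, with the
restriction `P` of the bracket `Q` of `ℂ[x, y]`, `{f, g} = ∂_y f ∂_x g - ∂_x f ∂_y g`. Then `O` is
a finitely generated domain, the morphism `𝔸² → X = Spec O` is a symplectic resolution, and there
is a deformation quantization `A` of `O` such that the canonical surjection
`HP_0(O)((ħ)) → gr HH_0(A[ħ⁻¹])` has a nonzero kernel in every degree. -/
theorem result :
    ∃ (O : Subalgebra ℂ (MvPolynomial (Fin 2) ℂ)) (P : PoissonBracket O)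
      (Q : PoissonBracket (MvPolynomial (Fin 2) ℂ)),
      (∀ f, f ∈ O ↔ ∀ i, MvPolynomial.constantCoeff (MvPolynomial.pderiv i f) = 0) ∧
      (∀ f g, Q.br f g = MvPolynomial.pderiv 1 f * MvPolynomial.pderiv 0 g -
        MvPolynomial.pderiv 0 f * MvPolynomial.pderiv 1 g) ∧
      IsDomain O ∧ Algebra.FiniteType ℂ O ∧ IsSymplecticResolution P Q O.val ∧
      ∃ (A : Type) (_ : Ring A) (_ : Algebra (PowerSeries ℂ) A) (π : A →+* O),
        IsDeformationQuantization P π ∧
        ∃ x : P.HP0, x ≠ 0 ∧ ∀ n : ℤ, x ∈ kernel P π n :=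
  ⟨OX, PO, PR, fun _ => mem_OX, pb_apply, inferInstance, finiteType_OX, resolution, AA,
    inferInstance, inferInstance, piO, quantization, _, mk_one_ne, kernel_one⟩

end Pool.Agent.Results.MP_b538eb_ag.NonNormal
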